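import Pool.Agent.H60.HED.Defs
import Pool.Agent.H64.BorsukUlam

/-! # Lusternik-Schnirelmann for open sets -/

set_option autoImplicit false

namespace Pool.Agent.H60.HED

private theorem lso_eq {k : ℕ} {U : Set (E k)} (hU : IsOpen U) {x : E k}
    (h : Metric.infDist x Uᶜ = Metric.infDist (-x) Uᶜ) (hx : x ∈ U) (hx' : -x ∉ U) : False := by
  have h1 : Metric.infDist (-x) Uᶜ = 0 := Metric.infDist_zero_of_mem hx'
  rw [h1] at h
  have h2 := (hU.isClosed_compl.mem_iff_infDist_zero ⟨-x, hx'⟩).2 h
  exact h2 hx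

theorem lso : S_LSO := by
  intro k M U hU hcov hanti
  by_contra hM
  have hx0 : (fun _ => 1 : E k) ∈ Sph k := by
    rw [mem_sphere_zero_iff_norm]
    have : (fun _ => 1 : E k) = 1 := rfl
    rw [this, norm_one]
  rcases M with _ | m
  · obtain ⟨i, _⟩ := hcov _ hx0
    exact i.elim0
  · have hd : Module.finrank ℝ (Fin m → ℝ) < Module.finrank ℝ (E k) := by
      rw [Module.finrank_fin_fun, Module.finrank_fin_fun]
      omega
    obtain ⟨x, hx, hfx⟩ := Pool.Agent.H64.BU.borsukUlam hd
      (fun x i => Metric.infDist x (U (Fin.castSucc i))ᶜ -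
        Metric.infDist (-x) (U (Fin.castSucc i))ᶜ)
      (Continuous.continuousOn (continuous_pi fun i =>
        (Metric.continuous_infDist_pt _).sub ((Metric.continuous_infDist_pt _).comp continuous_neg)))
      (fun x _ => by
        ext i
        simp only [neg_neg, Pi.neg_apply, neg_sub])
    have hxn : -x ∈ Sph k := by
      rw [mem_sphere_zero_iff_norm] at hx ⊢
      rw [norm_neg, hx]
    have hi : ∀ i : Fin m, x ∉ U (Fin.castSucc i) ∧ -x ∉ U (Fin.castSucc i) := by
      intro i
      have h1 : Metric.infDist x (U (Fin.castSucc i))ᶜ =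
          Metric.infDist (-x) (U (Fin.castSucc i))ᶜ := sub_eq_zero.1 (congrFun hfx i)
      refine ⟨fun h2 => lso_eq (hU _) h1 h2 (hanti _ x hx h2), fun h2 => ?_⟩
      have h3 := hanti _ (-x) hxn h2
      refine lso_eq (x := -x) (hU _) ?_ h2 h3
      rw [neg_neg]
      exact h1.symm
    obtain ⟨i, h1⟩ := hcov x hx
    obtain ⟨j, h2⟩ := hcov (-x) hxn
    have hlast : ∀ i : Fin (m + 1), (∀ a : Fin m, i ≠ Fin.castSucc a) → i = Fin.last m := by
      intro i h
      by_contra h3
      exact h (i.castPred h3) (Fin.castSucc_castPred i h3).symm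
    have h3 : i = Fin.last m := hlast i fun a ha => (hi a).1 (ha ▸ h1)
    have h4 : j = Fin.last m := hlast j fun a ha => (hi a).2 (ha ▸ h2)
    rw [h3] at h1
    rw [h4] at h2
    exact hanti _ x hx h1 h2

end Pool.Agent.H60.HED
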